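import Pool.Agent.J6H36.LF.Cor
import Pool.Agent.J6H92.LF.Ift
import Pool.Agent.J6H77.LF.Conj
import Pool.Agent.J6H27.LF.Model
import Pool.Agent.J6H63.LF.Small
import Pool.Agent.J6H28.LF.Galf
import Pool.Agent.J6H97.LF.Point
import Pool.Agent.J6H76.LF.Joint
import Pool.Agent.J6H78.LF.Cmp
import Pool.Agent.J6H45.LF.Rcb

/-!
# Rational motivic cohomology of complete valued fields: countable or of full dimension

`T` is a theory of rational motivic cohomology `H^i(R, ℚ(n))` with its published properties (`Theory`, `Theory2`), for which the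
groups of countable rings are countable.  `P` is a prime field.

(1) For all `i`, `n` one of the following holds.  (Small) For every algebraically closed field `Ω` over `P` all classes in
`H^i(Ω, ℚ(n))` come from the algebraic closure of `P` in `Ω`, and `dim H^i(F, ℚ(n)) ≤ ℵ₀` for every field `F` over `P`.
(Large) `dim H^i(F, ℚ(n)) = #F` for every field `F` over `P` which contains a field `K` with `#K = #F` that is complete
for a nontrivial absolute value (such as `ℝ`, `ℚ_p`, `𝔽_q((t))`), or uncountable with `K(√-1)` algebraically closed.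
(2) For `i ≤ 0 < n`: `H^i(F, ℚ(n)) = 0` for all fields `F` over `P`, or `dim H^i(F, ℚ(n)) = #F` for all fields `F` as in (Large).
(3) For each such field `F`: the Beilinson-Soulé vanishing (rational coefficients, all fields over `P`) holds iff
`dim H^0(F, ℚ(n)) < #F` for all `n ≥ 1`; and it holds if `dim H^1(F, ℚ(n)) < #F` for all `n ≥ 2`.
-/

set_option autoImplicit false

universe u

namespace Pool.Agent.Results.MP_e2821c_ag.CompleteFields

open Cardinal Pool.Agent.J6H36.BSV Pool.Agent.J6H36.LF

/-- `F` contains a field `K` with `#K = #F` which is complete for a nontrivial absolute value. -/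
def ContainsComplete (F : Type u) [Field F] : Prop :=
  ∃ (K : Type u) (_ : NontriviallyNormedField K) (_ : CompleteSpace K) (_ : K →+* F), #K = #F

/-- `F` contains an uncountable field `K` with `#K = #F` such that `K(√-1)` is algebraically closed. -/
def ContainsClosed (F : Type u) [Field F] : Prop :=
  ∃ (K : Type u) (_ : Field K) (_ : K →+* F), ℵ₀ < #K ∧ IClosed K ∧ #K = #F

/-- The fields of the theorem. -/
def Good (F : Type u) [Field F] : Prop := ContainsComplete F ∨ ContainsClosed F

/-- (1), first alternative -/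
def Small (T : Theory2.{u}) (P : Type) [Field P] (i : ℤ) (n : ℕ) : Prop :=
  Rigid T P i n ∧ ∀ (F : Type u) [Field F] [Algebra P F], Module.rank ℚ (T.H i n F) ≤ ℵ₀

/-- (1), second alternative -/
def Large (T : Theory2.{u}) (P : Type) [Field P] (i : ℤ) (n : ℕ) : Prop :=
  ∀ (F : Type u) [Field F] [Algebra P F], Good F → Module.rank ℚ (T.H i n F) = #F

/-- The Beilinson-Soulé vanishing with rational coefficients for all fields over the prime field `P`. -/
def Vanishing (T : Theory2.{u}) (P : Type) [Field P] : Prop :=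
  ∀ (i : ℤ) (n : ℕ), i ≤ 0 → 1 ≤ n → ∀ (F : Type u) [Field F] [Algebra P F] (x : T.H i n F), x = 0

theorem big_of_good (P : Type) [Field P] (hP : (⊥ : Subfield P) = ⊤) (F : Type u) [Field F]
    [Algebra P F] (h : Good F) : ∃ (K : Type u) (_ : Field K) (_ : Algebra P K) (_ : K →+* F),
      Big P K ∧ #K = #F ∧ ℵ₀ < #F := by
  have : Countable P := countable_prime P hP
  have : PerfectField P := perfect_prime P hP
  -- the prime field is contained in every subfield
  have hsub : ∀ (K : Type u) [Field K] (g : K →+* F), Nonempty (P →+* K) := by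
    intro K _ g
    have h1 : ∀ p : P, ∃ z : K, g z = algebraMap P F p := by
      intro p
      have h2 : p ∈ (g.fieldRange.comap (algebraMap P F) : Subfield P) := by
        have h3 : (⊤ : Subfield P) ≤ g.fieldRange.comap (algebraMap P F) := by
          rw [← hP]
          exact bot_le
        exact h3 (Subfield.mem_top p)
      exact h2
    choose f hf using h1
    exact ⟨{ toFun := f
             map_one' := g.injective (by rw [hf, map_one, map_one])
             map_mul' := fun a b => g.injective (by rw [hf, map_mul, map_mul, hf, hf])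
             map_zero' := g.injective (by rw [hf, map_zero, map_zero])
             map_add' := fun a b => g.injective (by rw [hf, map_add, map_add, hf, hf]) }⟩
  rcases h with ⟨K, _, _, g, hc⟩ | ⟨K, _, g, hu, hcl, hc⟩
  · obtain ⟨f⟩ := hsub K g
    let _ : Algebra P K := f.toAlgebra
    refine ⟨K, inferInstance, inferInstance, g, ?_, hc, ?_⟩
    · exact big_of_complete Pool.Agent.J6H63.LF.Small.t_SMALL Pool.Agent.J6H92.LF.t_IFT
        Pool.Agent.J6H28.LF.t_GALF P K
    · rw [← hc]
      exact lt_of_lt_of_le Cardinal.aleph0_lt_continuum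
        (continuum_le_cardinal_of_nontriviallyNormedField K)
  · obtain ⟨f⟩ := hsub K g
    let _ : Algebra P K := f.toAlgebra
    refine ⟨K, inferInstance, inferInstance, g, ?_, hc, ?_⟩
    · exact Pool.Agent.J6H45.LF.t_RCB Pool.Agent.J6H28.LF.t_GALF Pool.Agent.J6H77.LF.t_CONJ P K
        hu hcl
    · rw [← hc]
      exact hu

theorem dichotomy (T : Theory2.{u}) (hT : CountableGroups T) (P : Type) [Field P]
    (hP : (⊥ : Subfield P) = ⊤) (i : ℤ) (n : ℕ) : Small T P i n ∨ Large T P i n := by
  by_cases hr : Rigid T P i n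
  · exact Or.inl ⟨hr, fun F _ _ => rank_le_of_rigid T P hP hT i n hr F⟩
  right
  intro F _ _ hF
  obtain ⟨K, _, _, g, hB, hc, hu⟩ := big_of_good P hP F hF
  have : Infinite F := by
    rw [Cardinal.infinite_iff]
    exact hu.le
  apply le_antisymm (rank_le T hT i n F)
  rcases big_law Pool.Agent.J6H27.LF.Model.t_MODEL Pool.Agent.J6H97.LFPoint.t_POINT
    Pool.Agent.J6H77.LF.t_CONJ Pool.Agent.J6H76.LF.t_JOINT Pool.Agent.J6H78.LFCMP.t_CMP
    T i n P hP K hB with h | h
  · exact absurd h hr
  · rw [← hc]
    exact h.trans (LinearMap.rank_le_of_injective (T.map i n g) (map_inj T i n g))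

theorem result (T : Theory2.{u}) (hT : CountableGroups T) (P : Type) [Field P]
    (hP : (⊥ : Subfield P) = ⊤) :
    (∀ (i : ℤ) (n : ℕ), Small T P i n ∨ Large T P i n) ∧
    (∀ (i : ℤ) (n : ℕ), i ≤ 0 → 1 ≤ n →
      (∀ (F : Type u) [Field F] [Algebra P F] (x : T.H i n F), x = 0) ∨ Large T P i n) ∧
    ∀ (F : Type u) [Field F] [Algebra P F], Good F →
      (Vanishing T P ↔ ∀ n : ℕ, 1 ≤ n → Module.rank ℚ (T.H 0 n F) < #F) ∧
      ((∀ n : ℕ, 2 ≤ n → Module.rank ℚ (T.H 1 n F) < #F) → Vanishing T P) := by
  refine ⟨fun i n => dichotomy T hT P hP i n, fun i n hi hn => ?_, ?_⟩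
  · rcases dichotomy T hT P hP i n with h | h
    · exact Or.inl fun F _ _ x => zero_of_rigid T P hP i n hi hn h.1 F x
    · exact Or.inr h
  intro F _ _ hF
  have key : ∀ (i : ℤ) (n : ℕ), Module.rank ℚ (T.H i n F) < #F → Rigid T P i n := by
    intro i n h
    rcases dichotomy T hT P hP i n with h1 | h1
    · exact h1.1
    · exact absurd (h1 F hF) h.ne
  have hu : ℵ₀ < #F := by
    obtain ⟨K, _, _, g, hB, hc, hu⟩ := big_of_good P hP F hF
    exact hu
  refine ⟨⟨?_, ?_⟩, ?_⟩
  · intro h n hn
    have hsub : Subsingleton (T.H 0 n F) :=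
      ⟨fun a b => (h 0 n le_rfl hn F a).trans (h 0 n le_rfl hn F b).symm⟩
    rw [rank_subsingleton']
    exact lt_trans Cardinal.aleph0_pos hu
  · intro h i n hi hn F' _ _ x
    exact van_of_rigid_zero T P hP (fun m hm => key 0 m (h m hm)) i n hi hn F' x
  · intro h i n hi hn F' _ _ x
    exact van_of_rigid_one T P (fun m hm => key 1 m (h m hm)) i n hi hn F' x

end Pool.Agent.Results.MP_e2821c_ag.CompleteFields
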