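import Pool.Agent.J6H36.PF.Main3
import Pool.Agent.J6H8.PF.Loc
import Pool.Agent.J6H33.PF.Resp
import Pool.Agent.J6H44.PF.Res
import Pool.Agent.J6H83.PF.Seq
import Pool.Agent.J6H76.PF.Fam
import Pool.Agent.J6H28.PF.Ult

/-!
# The Beilinson-Soulé vanishing and products of finite fields

`T` is a theory of rational motivic cohomology `H^i(R, ℚ(n))` of commutative rings with its published properties
(`Theory`, `Theory2`, and `Theory3`: additivity for products of two rings).

(1) All fields: let `(F_j)` be a family of fields in which every finite field occurs, for example all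
finite fields `𝔽_q`, and `R = ∏_j F_j`.  For `i ≤ 0 < n`: `H^i(E, ℚ(n)) = 0` for all fields `E` iff `H^i(R, ℚ(n)) = 0`, and
otherwise `dim H^i(R, ℚ(n)) ≥ 2^ℵ₀`.  The Beilinson-Soulé vanishing (rational coefficients, all fields, all `i ≤ 0 < n`) holds iff
`dim H^0(R, ℚ(n)) < 2^ℵ₀` for all `n ≥ 1`.
(2) The same for the fields of characteristic `0` and a family of finite fields in which all `ℤ / p`, `p` prime, occur, and
every characteristic occurs finitely often, for example `R = ∏_p ℤ / p`.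
(3) The same for the fields of characteristic `p` and a family of fields of characteristic `p` in which all finite
fields of characteristic `p` occur.
-/

set_option autoImplicit false

universe u

namespace Pool.Agent.Results.MP_e2821c_ag.ProductsOfFiniteFields

open Cardinal Pool.Agent.J6H36.BSV Pool.Agent.J6H36.PF

/-- `H^i(E, ℚ(n)) = 0` for all fields `E` of the class `C`. -/
def ZeroOn (T : Theory3.{u}) (C : (E : Type u) → [Field E] → Prop) (i : ℤ) (n : ℕ) : Prop :=
  ∀ (E : Type u) [Field E], C E → ∀ x : T.H i n E, x = 0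

/-- `H^i(∏_j F_j, ℚ(n)) = 0`. -/
def ZeroProd (T : Theory3.{u}) {ι : Type u} (F : ι → Type u) [∀ j, Field (F j)] (i : ℤ) (n : ℕ) :
    Prop :=
  ∀ x : T.H i n (∀ j, F j), x = 0

/-- the dimension of `H^i(∏_j F_j, ℚ(n))` is at least `2^ℵ₀` -/
def LargeProd (T : Theory3.{u}) {ι : Type u} (F : ι → Type u) [∀ j, Field (F j)] (i : ℤ) (n : ℕ) :
    Prop :=
  𝔠 ≤ Module.rank ℚ (T.H i n (∀ j, F j))

/-- The vanishing for the fields of the class `C` is equivalent to the vanishing for the product of the `F_j`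
in each bidegree `i ≤ 0 < n`, and otherwise the dimension for the product is at least `2^ℵ₀`; for all bidegrees
`i ≤ 0 < n` together it is enough to consider `H^0` of the product. -/
def Equivalent (T : Theory3.{u}) (C : (E : Type u) → [Field E] → Prop) {ι : Type u}
    (F : ι → Type u) [∀ j, Field (F j)] : Prop :=
  (∀ (i : ℤ) (n : ℕ), i ≤ 0 → 1 ≤ n →
    (ZeroOn T C i n ↔ ZeroProd T F i n) ∧ (ZeroProd T F i n ∨ LargeProd T F i n)) ∧
  ((∀ (i : ℤ) (n : ℕ), i ≤ 0 → 1 ≤ n → ZeroOn T C i n) ↔ ∀ n : ℕ, 1 ≤ n → ¬ LargeProd T F 0 n)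

theorem bideg (T : Theory3.{u}) (C : (E : Type u) → [Field E] → Prop) {ι : Type u}
    (F : ι → Type u) [∀ j, Field (F j)] (i : ℤ) (n : ℕ) (h1 : ZeroOn T C i n → ZeroProd T F i n)
    (h2 : Module.rank ℚ (T.H i n (∀ j, F j)) < 𝔠 → ZeroOn T C i n) :
    (ZeroOn T C i n ↔ ZeroProd T F i n) ∧ (ZeroProd T F i n ∨ LargeProd T F i n) ∧
      (¬ LargeProd T F i n → ZeroOn T C i n) ∧ (ZeroOn T C i n → ¬ LargeProd T F i n) := by
  have h0 : ZeroProd T F i n → Module.rank ℚ (T.H i n (∀ j, F j)) < 𝔠 := by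
    intro h
    have hsub : Subsingleton (T.H i n (∀ j, F j)) := ⟨fun a b => (h a).trans (h b).symm⟩
    rw [rank_subsingleton']
    exact Cardinal.aleph0_pos.trans_le Cardinal.aleph0_le_continuum
  have h3 : ¬ LargeProd T F i n → ZeroOn T C i n := fun h => h2 (not_le.mp h)
  refine ⟨⟨h1, fun h => h2 (h0 h)⟩, ?_, h3, fun h hl => ?_⟩
  · by_cases h : LargeProd T F i n
    · exact Or.inr h
    · exact Or.inl (h1 (h3 h))
  · exact absurd (h0 (h1 h)) (not_lt.mpr hl)

theorem equiv_of (T : Theory3.{u}) (C : (E : Type u) → [Field E] → Prop)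
    (hC : ∀ (E : Type u) [Field E], C E → ∃ (P : Type) (_ : Field P), Nonempty (P →+* E) ∧
      ∀ (E' : Type u) [Field E'] [Algebra P E'], C E') {ι : Type u}
    (F : ι → Type u) [∀ j, Field (F j)]
    (h : ∀ (i : ℤ) (n : ℕ), i ≤ 0 → 1 ≤ n → (ZeroOn T C i n → ZeroProd T F i n) ∧
      (Module.rank ℚ (T.H i n (∀ j, F j)) < 𝔠 → ZeroOn T C i n)) :
    Equivalent T C F := by
  have hb := fun (i : ℤ) (n : ℕ) (hi : i ≤ 0) (hn : 1 ≤ n) =>
    bideg T C F i n (h i n hi hn).1 (h i n hi hn).2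
  refine ⟨fun i n hi hn => ⟨(hb i n hi hn).1, (hb i n hi hn).2.1⟩,
    fun h1 n hn => (hb 0 n le_rfl hn).2.2.2 (h1 0 n le_rfl hn), ?_⟩
  intro h1 i n hi hn E _ hE x
  obtain ⟨P, _, ⟨f⟩, hP⟩ := hC E hE
  let _ : Algebra P E := f.toAlgebra
  exact van_all T.toTheory2 P (fun n hn F' _ _ x =>
    (hb 0 n le_rfl hn).2.2.1 (h1 n hn) F' (hP F') x) i n hi hn E x

theorem result (T : Theory3.{u}) :
    (∀ (ι : Type u) (F : ι → Type u) [∀ j, Field (F j)],
      (∀ (E : Type u) [Field E] [Finite E], ∃ j, Nonempty (F j ≃+* E)) →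
      Equivalent T (fun _ _ => True) F) ∧
    (∀ (ι : Type u) (F : ι → Type u) [∀ j, Field (F j)] [∀ j, Finite (F j)],
      (∀ p : ℕ, p.Prime → ∃ j, Nonempty (F j ≃+* ZMod p)) →
      (∀ p : ℕ, p.Prime → {j | CharP (F j) p}.Finite) →
      Equivalent T (fun E _ => CharZero E) F) ∧
    (∀ (p : ℕ), p.Prime → ∀ (ι : Type u) (F : ι → Type u) [∀ j, Field (F j)] [∀ j, CharP (F j) p],
      (∀ (E : Type u) [Field E] [Finite E] [CharP E p], ∃ j, Nonempty (F j ≃+* E)) →
      Equivalent T (fun E _ => CharP E p) F) := by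
  refine ⟨?_, ?_, ?_⟩
  · intro ι F _ hF
    refine equiv_of T _ (fun E _ _ => ?_) F ?_
    · obtain ⟨p, hp⟩ := CharP.exists E
      rcases CharP.char_is_prime_or_zero E p with hpr | rfl
      · have : Fact p.Prime := ⟨hpr⟩
        exact ⟨ZMod p, inferInstance, ⟨ZMod.castHom dvd_rfl E⟩, fun _ _ _ => trivial⟩
      · have : CharZero E := CharP.charP_to_charZero E
        exact ⟨ℚ, inferInstance, ⟨algebraMap ℚ E⟩, fun _ _ _ => trivial⟩
    · intro i n _ _
      have h1 := all_iff Pool.Agent.J6H8.PF.t_LOC Pool.Agent.J6H28.PF.t_ULT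
        Pool.Agent.J6H83.PF.t_SEQ Pool.Agent.J6H44.PF.t_RES Pool.Agent.J6H76.PF.t_FAM T i n F hF
      exact ⟨fun h2 => h1.1 fun E _ x => h2 E trivial x, fun h2 E _ _ x => h1.2 h2 E x⟩
  · intro ι F _ _ hF hf
    refine equiv_of T _ (fun E _ hE => ?_) F ?_
    · have : CharZero E := hE
      exact ⟨ℚ, inferInstance, ⟨algebraMap ℚ E⟩, fun E' _ _ =>
        charZero_of_injective_algebraMap (algebraMap ℚ E').injective⟩
    · intro i n hi hn
      have h1 := zero_iff Pool.Agent.J6H8.PF.t_LOC Pool.Agent.J6H28.PF.t_ULT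
        Pool.Agent.J6H83.PF.t_SEQ Pool.Agent.J6H33.PF.t_RESP T i n hi hn F hF hf
      exact ⟨fun h2 => h1.1 fun E _ hE x => h2 E hE x, fun h2 E _ hE x => h1.2 h2 E x⟩
  · intro p hp ι F _ _ hF
    have : Fact p.Prime := ⟨hp⟩
    refine equiv_of T _ (fun E _ hE => ?_) F ?_
    · have : CharP E p := hE
      exact ⟨ZMod p, inferInstance, ⟨ZMod.castHom dvd_rfl E⟩, fun E' _ _ =>
        charP_of_injective_algebraMap (algebraMap (ZMod p) E').injective p⟩
    · intro i n _ _
      have h1 := char_iff Pool.Agent.J6H8.PF.t_LOC Pool.Agent.J6H28.PF.t_ULT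
        Pool.Agent.J6H83.PF.t_SEQ Pool.Agent.J6H44.PF.t_RES Pool.Agent.J6H76.PF.t_FAM T i n p F hF
      exact ⟨fun h2 => h1.1 fun E _ hE x => h2 E hE x, fun h2 E _ hE x => h1.2 h2 E x⟩

end Pool.Agent.Results.MP_e2821c_ag.ProductsOfFiniteFields
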