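import Pool.Agent.J6H36.RF.Main
import Pool.Agent.J6H26.RF.Down
import Pool.Agent.J6H85.RF.Up
import Pool.Agent.J6H85.RF.Clp
import Pool.Agent.J6H81.RF.Sep

/-!
# The Beilinson-Soulé vanishing and the finiteness of `H^1` of rational function fields

`T` is a theory of rational motivic cohomology `H^i(R, ℚ(n))` with its published properties (`Theory`, `Theory2`, and
`Theory4`: the localization sequence of the affine line over any field, and the finiteness of `H^i(P, ℚ(n))`, `i ≤ 1`, `n ≥ 2`, for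
prime fields `P`).

(1) For `i ≤ 0 < n` the following are equivalent: `H^i(E, ℚ(n)) = 0` for all fields `E` over `P`; `H^{i+1}(P(t_1, …, t_d), ℚ(n+1))` is
finite-dimensional for all `d`; all classes in `H^{i+1}(P(t_1, …, t_d), ℚ(n+1))` come from `P`, for all `d`.
(2) The Beilinson-Soulé vanishing (rational coefficients, all fields over `P`, all `i ≤ 0 < n`) holds iff
`H^1(P(t_1, …, t_d), ℚ(n))` is finite-dimensional for all `d` and all `n ≥ 2`.
-/

set_option autoImplicit false

universe u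

namespace Pool.Agent.Results.MP_e2821c_ag.RationalFunctionFields

open Pool.Agent.J6H36.BSV Pool.Agent.J6H36.RF

/-- `H^i(E, ℚ(n)) = 0` for all fields `E` over `P`. -/
def ZeroOver (T : Theory4.{u}) (P : Type) [Field P] (i : ℤ) (n : ℕ) : Prop :=
  ∀ (E : Type u) [Field E] [Algebra P E] (x : T.H i n E), x = 0

/-- `H^i(P(t_1, …, t_d), ℚ(n))` is finite-dimensional for all `d`. -/
def FiniteRational (T : Theory4.{u}) (P : Type) [Field P] (i : ℤ) (n : ℕ) : Prop :=
  ∀ (d : ℕ) (K : Type u) [Field K] [Algebra P K], PT P K d → Module.Finite ℚ (T.H i n K)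

/-- All classes in `H^i(P(t_1, …, t_d), ℚ(n))` come from the prime field, for all `d`. -/
def ConstantRational (T : Theory4.{u}) (P : Type) [Field P] (i : ℤ) (n : ℕ) : Prop :=
  ∀ (d : ℕ) (K : Type u) [Field K] [Algebra P K], PT P K d → ∀ x : T.H i n K, FromPrime T i n x

theorem result (T : Theory4.{u}) (P : Type) [Field P] (hP : (⊥ : Subfield P) = ⊤) :
    (∀ (i : ℤ) (n : ℕ), i ≤ 0 → 1 ≤ n →
      (ZeroOver T P i n ↔ FiniteRational T P (i + 1) (n + 1)) ∧
      (ZeroOver T P i n ↔ ConstantRational T P (i + 1) (n + 1))) ∧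
    ((∀ (i : ℤ) (n : ℕ), i ≤ 0 → 1 ≤ n → ZeroOver T P i n) ↔
      ∀ n : ℕ, 2 ≤ n → FiniteRational T P 1 n) := by
  have key : ∀ (i : ℤ) (n : ℕ), i ≤ 0 → 1 ≤ n →
      (ZeroOver T P i n ↔ FiniteRational T P (i + 1) (n + 1)) := by
    intro i n hi hn
    constructor
    · intro h
      exact fwd T i n P hP Pool.Agent.J6H26.RF.t_DOWN hi hn h
    · intro h E _ _ x
      exact bwd T i n P hP Pool.Agent.J6H85.RFUp.t_UP Pool.Agent.J6H85.RFClp.t_CLP
        Pool.Agent.J6H81.RFSep.t_SEP hi hn h E x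
  refine ⟨fun i n hi hn => ⟨key i n hi hn, ?_, ?_⟩, ?_, ?_⟩
  · intro h
    exact fwd_const T i n P hP Pool.Agent.J6H26.RF.t_DOWN h
  · intro h
    exact (key i n hi hn).mpr fun d K _ _ hK =>
      fin_of_const T (i + 1) (n + 1) P hP (by omega) (by omega) (h d K hK)
  · intro h n hn
    obtain ⟨m, rfl⟩ : ∃ m, n = m + 1 := ⟨n - 1, by omega⟩
    exact (key 0 m le_rfl (by omega)).mp (h 0 m le_rfl (by omega))
  · intro h i n hi hn E _ _ x
    exact van_all T.toTheory2 P (fun n hn F _ _ x =>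
      (key 0 n le_rfl hn).mpr (h (n + 1) (by omega)) F x) i n hi hn E x

end Pool.Agent.Results.MP_e2821c_ag.RationalFunctionFields
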