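import Pool.Agent.J6H36.BSV.Main

/-!
# Rational motivic cohomology of algebraically closed fields: zero or infinite-dimensional

`T` is a theory of rational motivic cohomology `H^i(R, ℚ(n))` with its published properties (`Theory`, `Theory2`).

(1) For algebraically closed fields `k ⊆ Ω` and `n ≥ 1` the cokernel of `H^i(k, ℚ(n)) → H^i(Ω, ℚ(n))` is zero or
infinite-dimensional.
(2) If `trdeg k Ω` is infinite it is zero or of dimension at least `trdeg k Ω`.
Let `P` be a prime field.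
(3) For `i ≤ 0 < n` and a field `F` over `P`: if the dimensions of the `H^i(F', ℚ(n))`, `F' / F` finite, are bounded, then
`H^i(F, ℚ(n)) = 0`.
(4) The Beilinson-Soulé vanishing (rational coefficients, all fields over `P`) holds iff all `H^0(K, ℚ(n))`, `n ≥ 1`, `K`
algebraically closed of finite degree of transcendence over `P`, are finite-dimensional.
(5) It holds iff `dim H^0(Ω, ℚ(n)) < trdeg P Ω` for all `n ≥ 1`, for one algebraically closed `Ω` with infinite `trdeg P Ω`; for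
uncountable `Ω` (for example `ℂ`): iff `dim H^0(Ω, ℚ(n)) < #Ω` for all `n ≥ 1`.
(6) It holds if the cokernels of `H^1(P', ℚ(n)) → H^1(K, ℚ(n))` are finite-dimensional for all `n ≥ 2` and all `K` as in (4), `P'` the algebraic
closure of `P` in `K`.
-/

set_option autoImplicit false

universe u

namespace Pool.Agent.Results.MP_e2821c_ag.ZeroOrInfinite

open Cardinal Pool.Agent.J6H36.BSV

/-- The cokernel of `H^i(k, ℚ(n)) → H^i(Ω, ℚ(n))`. -/
abbrev Coker (T : Theory2.{u}) (i : ℤ) (n : ℕ) (k Ω : Type u) [Field k] [Field Ω] [Algebra k Ω] :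
    Type u :=
  T.H i n Ω ⧸ LinearMap.range (T.map i n (algebraMap k Ω))

/-- (1) -/
def ZeroOrInf (T : Theory2.{u}) : Prop :=
  ∀ (i : ℤ) (n : ℕ), 1 ≤ n → ∀ (k Ω : Type u) [Field k] [Field Ω] [Algebra k Ω]
    [IsAlgClosed k] [IsAlgClosed Ω], Module.Finite ℚ (Coker T i n k Ω) →
    Function.Surjective (T.map i n (algebraMap k Ω))

/-- (2) -/
def DimLaw (T : Theory2.{u}) : Prop :=
  ∀ (i : ℤ) (n : ℕ) (k Ω : Type u) [Field k] [Field Ω] [Algebra k Ω]
    [IsAlgClosed k] [IsAlgClosed Ω], ℵ₀ ≤ Algebra.trdeg k Ω →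
    Function.Surjective (T.map i n (algebraMap k Ω)) ∨
      Algebra.trdeg k Ω ≤ Module.rank ℚ (Coker T i n k Ω)

/-- (3) -/
def BoundedZero (T : Theory2.{u}) (P : Type) [Field P] : Prop :=
  ∀ (i : ℤ) (n : ℕ), i ≤ 0 → 1 ≤ n → ∀ (F : Type u) [Field F] [Algebra P F] (B : ℕ),
    (∀ (F' : Type u) [Field F'] [Algebra F F'] [FiniteDimensional F F'],
      Module.rank ℚ (T.H i n F') ≤ B) → ∀ x : T.H i n F, x = 0

/-- The Beilinson-Soulé vanishing with rational coefficients for all fields over the prime field `P`. -/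
def Vanishing (T : Theory2.{u}) (P : Type) [Field P] : Prop :=
  ∀ (i : ℤ) (n : ℕ), i ≤ 0 → 1 ≤ n → ∀ (F : Type u) [Field F] [Algebra P F] (x : T.H i n F), x = 0

/-- the condition in (4) -/
def FiniteDim (T : Theory2.{u}) (P : Type) [Field P] : Prop :=
  ∀ n : ℕ, 1 ≤ n → ∀ (K : Type u) [Field K] [Algebra P K] [IsAlgClosed K],
    Algebra.trdeg P K < ℵ₀ → Module.Finite ℚ (T.H 0 n K)

/-- the condition in (5): `dim H^0(Ω, ℚ(n)) < c` for all `n ≥ 1` -/
def SmallDim (T : Theory2.{u}) (Ω : Type u) [Field Ω] (c : Cardinal.{u}) : Prop :=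
  ∀ n : ℕ, 1 ≤ n → Module.rank ℚ (T.H 0 n Ω) < c

/-- the condition in (6) -/
def FiniteCoker (T : Theory2.{u}) (P : Type) [Field P] : Prop :=
  ∀ n : ℕ, 2 ≤ n → ∀ (K : Type u) [Field K] [Algebra P K] [IsAlgClosed K],
    Algebra.trdeg P K < ℵ₀ → Module.Finite ℚ (Coker T 1 n (algebraicClosure P K) K)

theorem result (T : Theory2.{u}) :
    ZeroOrInf T ∧ DimLaw T ∧ ∀ (P : Type) [Field P], (⊥ : Subfield P) = ⊤ →
      BoundedZero T P ∧ (Vanishing T P ↔ FiniteDim T P) ∧
      (∀ (Ω : Type u) [Field Ω] [Algebra P Ω] [IsAlgClosed Ω], ℵ₀ ≤ Algebra.trdeg P Ω →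
        (Vanishing T P ↔ SmallDim T Ω (Algebra.trdeg P Ω))) ∧
      (∀ (Ω : Type u) [Field Ω] [Algebra P Ω] [IsAlgClosed Ω], ℵ₀ < #Ω →
        (Vanishing T P ↔ SmallDim T Ω #Ω)) ∧
      (FiniteCoker T P → Vanishing T P) := by
  refine ⟨fun i n hn k Ω _ _ _ _ _ h => surj_of_finite T i n hn k Ω h,
    fun i n k Ω _ _ _ _ _ h => dim_law T i n k Ω h, ?_⟩
  intro P _ hP
  have key5 : ∀ (Ω : Type u) [Field Ω] [Algebra P Ω] [IsAlgClosed Ω], ℵ₀ ≤ Algebra.trdeg P Ω →
      (Vanishing T P ↔ SmallDim T Ω (Algebra.trdeg P Ω)) := by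
    intro Ω _ _ _ hinf
    constructor
    · intro h n hn
      have hsub : Subsingleton (T.H 0 n Ω) :=
        ⟨fun a b => (h 0 n le_rfl hn Ω a).trans (h 0 n le_rfl hn Ω b).symm⟩
      rw [rank_subsingleton']
      exact lt_of_lt_of_le Cardinal.aleph0_pos hinf
    · intro h i n hi hn F _ _ x
      exact van_all T P (fun n hn F _ _ x =>
        van_of_rank T P hP 0 n le_rfl hn Ω hinf (h n hn) F x) i n hi hn F x
  refine ⟨fun i n hi hn F _ _ B hB x => zero_of_bounded T P hP i n hi hn F B hB x, ?_, key5, ?_, ?_⟩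
  · constructor
    · intro h n hn K _ _ _ _
      have hsub : Subsingleton (T.H 0 n K) :=
        ⟨fun a b => (h 0 n le_rfl hn K a).trans (h 0 n le_rfl hn K b).symm⟩
      infer_instance
    · intro h i n hi hn F _ _ x
      exact van_all T P (fun n hn F _ _ x => red_fg T P 0 n
        (fun K _ _ _ hK x => zero_of_finite T P hP 0 n le_rfl hn K (h n hn K hK) x) F x)
        i n hi hn F x
  · intro Ω _ _ _ hΩ
    have htr := trdeg_eq_card P hP Ω hΩ
    have h1 := key5 Ω (by rw [htr]; exact hΩ.le)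
    rw [htr] at h1
    exact h1
  · intro h i n hi hn F _ _ x
    refine van_all T P (fun n hn F _ _ x => ?_) i n hi hn F x
    exact van_of_rigid T P 0 n (fun K _ _ _ hK => h (n + 1) (by omega) K hK) F x

end Pool.Agent.Results.MP_e2821c_ag.ZeroOrInfinite
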